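import Pool.Agent.Helper5.N2.Stmts2

/-!
# Null 2-type surfaces: critical points of `g` with `ps ≠ 0`, `ta ≠ 0` (row CR)
-/

set_option autoImplicit false

namespace N255
open N2

/-- pure algebra for the second derivative relation -/
lemma algD2 (k F g w y b bc z a1 S BB TB T2 PD BD ph1 q q' V n : ℂ)
    (hk : k ≠ 0) (hF : F ≠ 0) (hg : g ≠ 0) (hz : z ≠ 0) (hy : y ≠ 0) (hyd : y = 1 - k * g)
    (hq : q = g * k * F * b * z) (hq' : q' = g * k * F * bc * z⁻¹) (hV : V = g * k * F * w)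
    (hS : g * S = q ^ 2) (hBB : g * BB = q * q') (hn : n = w + k * g * (b * bc) - y)
    (ha1 : a1 = g * k * F * z * ((1 - 2 * (k * g)) * b + w))
    (hP7 : q' * F⁻¹ * S - k * F * y * q + TB = 2 * k * F * a1)
    (hT2 : T2 = z * TB) (hph1 : y * ph1 = 3 * k * a1)
    (hPD : PD = q * ph1 - 2 * (y * S - k * q ^ 2) - 3 * T2)
    (hBD : g * BD = q' * PD)
    (hD2 : y * BD = 2 * k * a1 * BB + k * F * y * TB + k ^ 2 * F ^ 2 * a1 * (y + 4 * k * g)
      + ph1 * (7 * k * F * V + 7 * k * q * q' - 8 * k ^ 2 * F ^ 2 * g * y)) :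
    ((k * g) * (b * bc)) * ((1 - 2 * (k * g)) * b + w)
      - (2 * y * (1 - 2 * (k * g)) * (b * bc)) * b
      - y * (3 * bc + 1) * (2 * ((1 - 2 * (k * g)) * b + w) - (k * g * (b * bc)) * b + y * b)
      - ((1 - 2 * (k * g)) * b + w)
      - (21 * (k * g) * n / y) * ((1 - 2 * (k * g)) * b + w) = 0 := by
  have hS2 : S = g * k ^ 2 * F ^ 2 * b ^ 2 * z ^ 2 := by
    apply mul_left_cancel₀ hg
    rw [hS, hq]; ring
  have hBB2 : BB = g * k ^ 2 * F ^ 2 * (b * bc) := by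
    apply mul_left_cancel₀ hg
    rw [hBB, hq, hq']; field_simp
  have hTB : TB = g * k ^ 2 * F ^ 2 * z
      * (2 * ((1 - 2 * (k * g)) * b + w) - (k * g * (b * bc)) * b + y * b) := by
    have h1 : TB = 2 * k * F * a1 - q' * F⁻¹ * S + k * F * y * q := by
      linear_combination hP7
    rw [h1, ha1, hS2, hq, hq']; field_simp
  have hph2 : ph1 = 3 * k * (g * k * F) * z * ((1 - 2 * (k * g)) * b + w) / y := by
    rw [eq_div_iff hy]
    linear_combination hph1 + 3 * k * ha1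
  have hBD2 : BD = k * F * bc * z⁻¹ * PD := by
    apply mul_left_cancel₀ hg
    rw [hBD, hq']; ring
  have hc : g * (k * F) ^ 3 * z ≠ 0 :=
    mul_ne_zero (mul_ne_zero hg (pow_ne_zero _ (mul_ne_zero hk hF))) hz
  apply mul_left_cancel₀ hc
  rw [mul_zero, ← sub_eq_zero.2 hD2]
  rw [hBD2, hPD, hT2, hph2, hTB, hS2, hBB2, ha1, hV, hq, hq', hn]
  field_simp
  subst hyd
  ring

/-- pure algebra for the mixed derivative relation -/
lemma algDD (k F g w y b bc z a1 a1' d1 S S' BB TB TB' EE ph1 ph2 q q' U V n : ℂ)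
    (hk : k ≠ 0) (hF : F ≠ 0) (hg : g ≠ 0) (hz : z ≠ 0) (hy : y ≠ 0) (hw : w ≠ 0) (hyd : y = 1 - k * g)
    (hq : q = g * k * F * b * z) (hq' : q' = g * k * F * bc * z⁻¹) (hV : V = g * k * F * w)
    (hU : U = g * k * F * w * z)
    (hS : g * S = q ^ 2) (hS' : g * S' = q' ^ 2) (hBB : g * BB = q * q')
    (hn : n = w + k * g * (b * bc) - y)
    (ha1 : a1 = g * k * F * z * ((1 - 2 * (k * g)) * b + w))
    (ha1' : a1' = g * k * F * z⁻¹ * ((1 - 2 * (k * g)) * bc + w))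
    (hd1 : d1 = g * k * F * n)
    (hP7 : q' * F⁻¹ * S - k * F * y * q + TB = 2 * k * F * a1)
    (hP7' : q * F⁻¹ * S' - k * F * y * q' + TB' = 2 * k * F * a1')
    (hEE : V * EE = TB' * TB) (hph1 : y * ph1 = 3 * k * a1)
    (hph2 : y * ph2 = 3 * (k * g) * (k * F) * n)
    (hDD : -(2 * k * d1 * BB)
      + y * (EE - k * F * y * BB + k ^ 2 * F * q * q' + (S * S' - BB ^ 2) * F⁻¹
        - 2 * k ^ 2 * F ^ 2 * d1)
      = 3 * k * F * (ph2 * V + (k * F * y * d1 - k * q * a1'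
          + q' * F⁻¹ * (q * F⁻¹ * BB - k * F * y * q - k * F * U)))
        + 3 * k ^ 2 * F * (a1 * q' + q * a1')
        - 4 * k ^ 2 * F ^ 2 * (ph2 * g * y + d1 * (y - k * g))
        + 2 * k * F * (a1' * ph1 + d1 * ph2)) :
    y * ((2 * ((1 - 2 * (k * g)) * b + w) - (k * g * (b * bc)) * b + y * b)
        * (2 * ((1 - 2 * (k * g)) * bc + w) - (k * g * (b * bc)) * bc + y * bc)) / w
      - 2 * (k * g) * n * (b * bc) - y * (1 - 2 * (k * g)) * (b * bc) - 2 * y * n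
      - 9 * (k * g) * n * w / y - 3 * y * n - 3 * (k * g) ^ 2 * (b * bc) ^ 2
      + 3 * (k * g) * y * (b * bc) - 3 * (k * g) * (1 - 2 * (k * g)) * (b * bc)
      + 4 * n * (1 + k * g)
      - (6 * (k * g) / y) * (((1 - 2 * (k * g)) * b + w) * ((1 - 2 * (k * g)) * bc + w) + n ^ 2) = 0 := by
  have hS2 : S = g * k ^ 2 * F ^ 2 * b ^ 2 * z ^ 2 := by
    apply mul_left_cancel₀ hg
    rw [hS, hq]; ring
  have hS2' : S' = g * k ^ 2 * F ^ 2 * bc ^ 2 * (z⁻¹) ^ 2 := by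
    apply mul_left_cancel₀ hg
    rw [hS', hq']; ring
  have hBB2 : BB = g * k ^ 2 * F ^ 2 * (b * bc) := by
    apply mul_left_cancel₀ hg
    rw [hBB, hq, hq']; field_simp
  have hTB : TB = g * k ^ 2 * F ^ 2 * z
      * (2 * ((1 - 2 * (k * g)) * b + w) - (k * g * (b * bc)) * b + y * b) := by
    have h1 : TB = 2 * k * F * a1 - q' * F⁻¹ * S + k * F * y * q := by
      linear_combination hP7
    rw [h1, ha1, hS2, hq, hq']; field_simp
  have hTB' : TB' = g * k ^ 2 * F ^ 2 * z⁻¹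
      * (2 * ((1 - 2 * (k * g)) * bc + w) - (k * g * (b * bc)) * bc + y * bc) := by
    have h1 : TB' = 2 * k * F * a1' - q * F⁻¹ * S' + k * F * y * q' := by
      linear_combination hP7'
    rw [h1, ha1', hS2', hq, hq']; field_simp
  have hph1' : ph1 = 3 * k * (g * k * F) * z * ((1 - 2 * (k * g)) * b + w) / y := by
    rw [eq_div_iff hy]
    linear_combination hph1 + 3 * k * ha1
  have hph2' : ph2 = 3 * (k * g) * (k * F) * n / y := by
    rw [eq_div_iff hy]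
    linear_combination hph2
  have hEE' : EE = g * (k * F) ^ 3
      * ((2 * ((1 - 2 * (k * g)) * b + w) - (k * g * (b * bc)) * b + y * b)
        * (2 * ((1 - 2 * (k * g)) * bc + w) - (k * g * (b * bc)) * bc + y * bc)) / w := by
    have hVn : V ≠ 0 := by
      rw [hV]; exact mul_ne_zero (mul_ne_zero (mul_ne_zero hg hk) hF) hw
    apply mul_left_cancel₀ hVn
    rw [hEE, hTB, hTB', hV]; field_simp
  have hc : g * (k * F) ^ 3 ≠ 0 := mul_ne_zero hg (pow_ne_zero _ (mul_ne_zero hk hF))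
  apply mul_left_cancel₀ hc
  rw [mul_zero, ← sub_eq_zero.2 hDD]
  rw [hEE', hph1', hph2', hS2, hS2', hBB2, hd1, ha1, ha1', hU, hV, hq, hq']
  generalize hE1 : (2 * ((1 - 2 * (k * g)) * b + w) - (k * g * (b * bc)) * b + y * b) = E1
  generalize hE2 : (2 * ((1 - 2 * (k * g)) * bc + w) - (k * g * (b * bc)) * bc + y * bc) = E2
  field_simp
  subst hyd
  ring

/-- realness -/
lemma chi_real {R : Type} [CommRing R] [DR R] (χ : Ev R) {x : R} (h : cj x = x) :
    χ x = (((χ x).re : ℝ) : ℂ) := by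
  have h1 : (starRingEnd ℂ) (χ x) = χ x := by
    rw [← χ.hcj, h]
  exact (Complex.conj_eq_iff_re.1 h1).symm

/-- nonnegativity of the real dot product -/
lemma chi_nonneg {R : Type} [CommRing R] [DR R] (χ : Ev R) {m : ℕ} (a : Fin m → R) {x : R}
    (h : dot a (cjv a) = x) : 0 ≤ (χ x).re := by
  rw [← h, χ.dot_cjv, Complex.ofReal_re]
  exact Finset.sum_nonneg fun i _ => by positivity

lemma chi_pos {R : Type} [CommRing R] [DR R] (χ : Ev R) {m : ℕ} (a : Fin m → R) {x : R}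
    (h : dot a (cjv a) = x) (hr : cj x = x) (h0 : χ x ≠ 0) : 0 < (χ x).re := by
  refine lt_of_le_of_ne (chi_nonneg χ a h) fun h1 => h0 ?_
  rw [chi_real χ hr, ← h1, Complex.ofReal_zero]

lemma chi_zero {R : Type} [CommRing R] [DR R] (χ : Ev R) {m : ℕ} (a : Fin m → R)
    (h : χ (dot a (cjv a)) = 0) (i : Fin m) : χ (a i) = 0 := by
  rw [χ.dot_cjv] at h
  have h1 : (∑ i, ‖χ (a i)‖ ^ 2 : ℝ) = 0 := by exact_mod_cast h
  have h2 := (Finset.sum_eq_zero_iff_of_nonneg (fun i _ => by positivity)).1 h1 i (Finset.mem_univ i)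
  exact norm_eq_zero.1 (pow_eq_zero_iff (two_ne_zero)|>.1 h2)

lemma chi_dot_zero {R : Type} [CommRing R] [DR R] (χ : Ev R) {m : ℕ} (a c : Fin m → R)
    (h : χ (dot a (cjv a)) = 0) : χ (dot a c) = 0 := by
  rw [χ.dot]
  exact Finset.sum_eq_zero fun i _ => by rw [chi_zero χ a h i, zero_mul]

/-- Gram relation for values of a character -/
lemma gramR (hG : ST_GRAM) {R : Type} [CommRing R] [DR R] (χ : Ev R) (A B v1 v2 v3 w1 w2 w3 : Fin 4 → R)
    (hAA : dot A A = 0) (hBB : dot B B = 0) (hAB : χ (dot A B) ≠ 0)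
    (h1 : dot v1 A = 0) (h1' : dot v1 B = 0) (h2 : dot v2 A = 0) (h2' : dot v2 B = 0)
    (h3 : dot v3 A = 0) (h3' : dot v3 B = 0)
    (k1 : dot w1 A = 0) (k1' : dot w1 B = 0) (k2 : dot w2 A = 0) (k2' : dot w2 B = 0)
    (k3 : dot w3 A = 0) (k3' : dot w3 B = 0) :
    χ (dot v1 w1) * (χ (dot v2 w2) * χ (dot v3 w3) - χ (dot v2 w3) * χ (dot v3 w2))
    - χ (dot v1 w2) * (χ (dot v2 w1) * χ (dot v3 w3) - χ (dot v2 w3) * χ (dot v3 w1))
    + χ (dot v1 w3) * (χ (dot v2 w1) * χ (dot v3 w2) - χ (dot v2 w2) * χ (dot v3 w1)) = 0 := by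
  have hh : ∀ a c : Fin 4 → R, dot a c = 0 → ∑ i, χ (a i) * χ (c i) = 0 := by
    intro a c h
    rw [← χ.dot, h, map_zero]
  have key := hG (fun i => χ (A i)) (fun i => χ (B i)) (fun i => χ (v1 i)) (fun i => χ (v2 i))
    (fun i => χ (v3 i)) (fun i => χ (w1 i)) (fun i => χ (w2 i)) (fun i => χ (w3 i))
    (hh A A hAA) (hh B B hBB) (by rw [← χ.dot]; exact hAB) (by
      intro v hv
      simp only [List.mem_cons, List.not_mem_nil, or_false] at hv
      rcases hv with rfl | rfl | rfl | rfl | rfl | rfl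
      · exact ⟨hh _ _ h1, hh _ _ h1'⟩
      · exact ⟨hh _ _ h2, hh _ _ h2'⟩
      · exact ⟨hh _ _ h3, hh _ _ h3'⟩
      · exact ⟨hh _ _ k1, hh _ _ k1'⟩
      · exact ⟨hh _ _ k2, hh _ _ k2'⟩
      · exact ⟨hh _ _ k3, hh _ _ k3'⟩)
  simp only [χ.dot]
  exact key

/-- the numerical core of the analysis of critical points with `ta ≠ 0` -/
lemma coreCR (k F g V : ℝ) (hk : 0 < k) (hF : 0 < F) (hg : 0 < g) (hV : 0 < V) (hy : 0 < 1 - k * g)
    (q q' U U' a1 d1 S S' BB TB T2 PD BD ph1 ph2 EE PP y : ℂ)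
    (hq' : q' = (starRingEnd ℂ) q) (hU' : U' = (starRingEnd ℂ) U) (hyv : y = 1 - k * g)
    (hUU : U * U' = (V : ℂ) ^ 2) (hS : g * S = q ^ 2) (hS' : g * S' = q' ^ 2) (hBB : g * BB = q * q')
    (hBD : g * BD = q' * PD) (hT2 : V * T2 = U * TB) (hEE : V * EE = (starRingEnd ℂ) TB * TB)
    (ha1 : a1 = U + (1 - 2 * k * g) * q)
    (hd1 : d1 = V + q * q' * (F : ℂ)⁻¹ - k * F * y * g)
    (hZ : y * BB = 3 * k * F * V + 3 * k * q * q' - 2 * k * k * F * F * g * y)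
    (hP7 : q' * (F : ℂ)⁻¹ * S - k * F * y * q + TB = 2 * k * F * a1)
    (hPD : PD = q * ph1 - 2 * (y * S - k * q ^ 2) - 3 * T2)
    (hph1 : y * ph1 = 3 * k * a1) (hph2 : ph2 = BB * (F : ℂ)⁻¹ - k * k * F * g)
    (hPP : PP = y * y * F + q * q' * (F : ℂ)⁻¹ + V)
    (hD2 : y * BD = 2 * k * a1 * BB + k * F * y * TB + (k : ℂ) ^ 2 * (F : ℂ) ^ 2 * a1 * (y + 4 * k * g)
      + ph1 * (7 * k * F * V + 7 * k * q * q' - 8 * (k : ℂ) ^ 2 * (F : ℂ) ^ 2 * g * y))
    (hDD : -(2 * k * d1 * BB)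
      + y * (EE - k * F * y * BB + (k : ℂ) ^ 2 * F * q * q' + (S * S' - BB ^ 2) * (F : ℂ)⁻¹
        - 2 * (k : ℂ) ^ 2 * (F : ℂ) ^ 2 * d1)
      = 3 * k * F * (ph2 * V + (k * F * y * d1 - k * q * (starRingEnd ℂ) a1
          + q' * (F : ℂ)⁻¹ * (q * (F : ℂ)⁻¹ * BB - k * F * y * q - k * F * U)))
        + 3 * (k : ℂ) ^ 2 * F * (a1 * q' + q * (starRingEnd ℂ) a1)
        - 4 * (k : ℂ) ^ 2 * (F : ℂ) ^ 2 * (ph2 * g * y + d1 * (y - k * g))
        + 2 * k * F * ((starRingEnd ℂ) a1 * ph1 + d1 * ph2)) :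
    ∃ (t w n s : ℝ) (b : ℂ), t = k * g ∧ 0 < t ∧ t < 1 ∧ 0 < w ∧
      n = w + t * ‖b‖ ^ 2 - (1 - t) ∧ (1 - 4 * t) * ‖b‖ ^ 2 = 3 * w - 2 * (1 - t) ∧
      0 < s ∧ d1.re = s * n ∧
      ‖a1‖ = s * ‖((1 - 2 * t : ℝ) : ℂ) * b + (w : ℂ)‖ ∧
      PP.re = F * ((1 - t) + n * t) ∧
      RelD2 t w n b ∧ RelDD t w n b := by
  have hkc : (k : ℂ) ≠ 0 := by exact_mod_cast hk.ne'
  have hFc : (F : ℂ) ≠ 0 := by exact_mod_cast hF.ne'
  have hgc : (g : ℂ) ≠ 0 := by exact_mod_cast hg.ne'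
  have hVc : (V : ℂ) ≠ 0 := by exact_mod_cast hV.ne'
  have hyc : y ≠ 0 := by
    rw [hyv]; exact_mod_cast hy.ne'
  have hs : 0 < g * k * F := by positivity
  have hsc : ((g * k * F : ℝ) : ℂ) ≠ 0 := by exact_mod_cast hs.ne'
  -- the unit number `z`
  obtain ⟨z, hzdef⟩ : ∃ z : ℂ, z = U / V := ⟨_, rfl⟩
  have hzz : z * (starRingEnd ℂ) z = 1 := by
    rw [hzdef, map_div₀, Complex.conj_ofReal, ← hU', div_mul_div_comm, hUU]
    field_simp
  have hz0 : z ≠ 0 := by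
    intro h
    rw [h, zero_mul] at hzz
    exact zero_ne_one hzz
  have hzc : (starRingEnd ℂ) z = z⁻¹ := by
    field_simp
    rw [mul_comm]; exact hzz
  have hzn : ‖z‖ = 1 := by
    have h1 : ((‖z‖ ^ 2 : ℝ) : ℂ) = 1 := by
      rw [← Complex.normSq_eq_norm_sq, ← Complex.mul_conj, hzz]
    have h2 : ‖z‖ ^ 2 = 1 := by exact_mod_cast h1
    exact (pow_eq_one_iff_of_nonneg (norm_nonneg _) two_ne_zero).1 h2
  obtain ⟨b, hbdef⟩ : ∃ b : ℂ, b = q * z⁻¹ / ((g * k * F : ℝ) : ℂ) := ⟨_, rfl⟩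
  obtain ⟨w, hwdef⟩ : ∃ w : ℝ, w = V / (g * k * F) := ⟨_, rfl⟩
  have hw : 0 < w := by rw [hwdef]; positivity
  have hwc : (w : ℂ) ≠ 0 := by exact_mod_cast hw.ne'
  have hVw : (V : ℂ) = g * k * F * w := by
    have : V = g * k * F * w := by rw [hwdef]; field_simp
    rw [this]; push_cast; ring
  have hqb : q = g * k * F * b * z := by
    rw [hbdef]; push_cast; field_simp
  have hbc : (starRingEnd ℂ) b = q' * z / ((g * k * F : ℝ) : ℂ) := by
    rw [hbdef, map_div₀, map_mul, Complex.conj_ofReal, map_inv₀, hzc, inv_inv, ← hq']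
  have hqb' : q' = g * k * F * (starRingEnd ℂ) b * z⁻¹ := by
    rw [hbc]; push_cast; field_simp
  have hUz : U = g * k * F * w * z := by
    rw [← hVw, hzdef]; field_simp
  have hbb : b * (starRingEnd ℂ) b = ((‖b‖ ^ 2 : ℝ) : ℂ) := by
    rw [Complex.mul_conj, Complex.normSq_eq_norm_sq]
  have ha1' : a1 = g * k * F * z * ((1 - 2 * (k * g)) * b + w) := by
    rw [ha1, hUz, hqb]; ring
  have hca1 : (starRingEnd ℂ) a1 = g * k * F * z⁻¹ * ((1 - 2 * (k * g)) * (starRingEnd ℂ) b + w) := by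
    rw [ha1']
    simp only [map_mul, map_add, map_sub, map_one, map_ofNat, Complex.conj_ofReal, hzc]
  obtain ⟨n, hndef⟩ : ∃ n : ℝ, n = w + k * g * ‖b‖ ^ 2 - (1 - k * g) := ⟨_, rfl⟩
  have hnc : (n : ℂ) = w + k * g * (b * (starRingEnd ℂ) b) - y := by
    rw [hbb, hndef, hyv]; push_cast; ring
  have hBBv : BB = g * k ^ 2 * F ^ 2 * (b * (starRingEnd ℂ) b) := by
    apply mul_left_cancel₀ hgc
    rw [hBB, hqb, hqb']; field_simp
  have hd1' : d1 = g * k * F * n := by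
    rw [hd1, hVw, hqb, hqb', hnc]; field_simp
  -- the relation `Z`
  have hZ' : (1 - 4 * (k * g)) * (b * (starRingEnd ℂ) b) = 3 * w - 2 * y := by
    have hc : (g * k ^ 2 * F ^ 2 : ℂ) ≠ 0 :=
      mul_ne_zero (mul_ne_zero hgc (pow_ne_zero _ hkc)) (pow_ne_zero _ hFc)
    apply mul_left_cancel₀ hc
    rw [hBBv, hVw] at hZ
    have h2 : q * q' = (g * k * F) ^ 2 * (b * (starRingEnd ℂ) b) := by
      rw [hqb, hqb']; field_simp
    have h3 : 3 * (k : ℂ) * q * q' = 3 * k * (q * q') := by ring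
    rw [h3, h2] at hZ
    rw [hyv] at hZ ⊢
    linear_combination hZ
  have h3n : 3 * (n : ℂ) = y * (b * (starRingEnd ℂ) b - 1) := by
    rw [hnc, hyv] at *
    linear_combination - hZ'
  have hph2' : y * ph2 = 3 * (k * g) * (k * F) * n := by
    have h1 : BB * (F : ℂ)⁻¹ = g * k ^ 2 * F * (b * (starRingEnd ℂ) b) := by
      rw [hBBv]; field_simp
    rw [hph2, h1]
    linear_combination (-(k * g) * (k * F)) * h3n
  have hT2' : T2 = z * TB := by
    apply mul_left_cancel₀ hVc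
    rw [hT2, hUz, hVw]; ring
  have hP7' : q * (F : ℂ)⁻¹ * S' - k * F * y * q' + (starRingEnd ℂ) TB
      = 2 * k * F * (starRingEnd ℂ) a1 := by
    have h := congrArg (starRingEnd ℂ) hP7
    have hSc : (starRingEnd ℂ) S = S' := by
      apply mul_left_cancel₀ hgc
      have h5 := congrArg (starRingEnd ℂ) hS
      rw [map_mul, Complex.conj_ofReal, map_pow, ← hq'] at h5
      rw [h5, hS']
    have hyr : (starRingEnd ℂ) y = y := by
      rw [hyv]; simp only [map_sub, map_one, map_mul, Complex.conj_ofReal]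
    have hqq : (starRingEnd ℂ) q' = q := by rw [hq']; exact Complex.conj_conj q
    simp only [map_mul, map_add, map_sub, map_inv₀, map_ofNat, Complex.conj_ofReal, hSc, hyr, hqq,
      ← hq'] at h
    exact h
  refine ⟨k * g, w, n, g * k * F, b, rfl, by positivity, by linarith, hw, hndef, ?_, hs, ?_, ?_, ?_, ?_, ?_⟩
  · rw [hbb, hyv] at hZ'
    exact_mod_cast hZ'
  · rw [hd1']
    have : ((g : ℂ) * k * F * n) = ((g * k * F * n : ℝ) : ℂ) := by push_cast; ring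
    rw [this, Complex.ofReal_re]
  · rw [ha1', norm_mul, norm_mul, hzn, mul_one]
    have h1 : ((g : ℂ) * k * F) = ((g * k * F : ℝ) : ℂ) := by push_cast; ring
    rw [h1, Complex.norm_real, Real.norm_of_nonneg hs.le]
    push_cast; ring_nf
  · have h1 : PP = ((F * ((1 - k * g) + n * (k * g)) : ℝ) : ℂ) := by
      rw [hPP]
      have h2 : q * q' * (F : ℂ)⁻¹ = g ^ 2 * k ^ 2 * F * (b * (starRingEnd ℂ) b) := by
        rw [hqb, hqb']; field_simp
      rw [h2, hVw]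
      push_cast
      rw [hnc, hyv]
      ring
    rw [h1, Complex.ofReal_re]
  · have h := algD2 k F g w y b ((starRingEnd ℂ) b) z a1 S BB TB T2 PD BD ph1 q q' V n hkc hFc hgc hz0 hyc
      hyv hqb hqb' hVw hS hBB hnc ha1' hP7 hT2' hph1 hPD hBD hD2
    rw [hbb, hyv] at h
    unfold RelD2
    rw [← h]
    push_cast
    ring
  · have h := algDD k F g w y b ((starRingEnd ℂ) b) z a1 ((starRingEnd ℂ) a1) d1 S S' BB TB
      ((starRingEnd ℂ) TB) EE ph1 ph2 q q' U V n hkc hFc hgc hz0 hyc hwc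
      hyv hqb hqb' hVw hUz hS hS' hBB hnc ha1' hca1 hd1' hP7 hP7' hEE hph1 hph2' hDD
    have hnsq : ∀ x : ℂ, ((‖x‖ ^ 2 : ℝ) : ℂ) = x * (starRingEnd ℂ) x := fun x => by
      rw [Complex.mul_conj, Complex.normSq_eq_norm_sq]
    unfold RelDD
    apply Complex.ofReal_injective
    rw [Complex.ofReal_zero, ← h]
    rw [Complex.ofReal_sub, Complex.ofReal_add, Complex.ofReal_sub, Complex.ofReal_add,
      Complex.ofReal_sub, Complex.ofReal_sub, Complex.ofReal_sub, Complex.ofReal_sub,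
      Complex.ofReal_sub, Complex.ofReal_sub, Complex.ofReal_div, Complex.ofReal_mul (1 - k * g),
      Complex.ofReal_mul _ (‖((1 - 2 * (k * g) : ℝ) : ℂ) * b + (w : ℂ)‖ ^ 2 + n ^ 2),
      Complex.ofReal_add (‖((1 - 2 * (k * g) : ℝ) : ℂ) * b + (w : ℂ)‖ ^ 2), hnsq, hnsq]
    simp only [map_mul, map_add, map_sub, map_ofNat, Complex.conj_ofReal]
    rw [hyv, hbb]
    push_cast
    ring

theorem st_CR (hG1 : ST_G1) (hG2 : ST_G2) (hG3 : ST_G3) (hG4 : ST_G4) (hP : ST_P) (hD2 : ST_D2)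
    (hD2b : ST_D2b) (hDD : ST_DD) (hGr : ST_GRAM) : ST_CR := by
  intro R _ _ N χ h5 hk hal hg0 hV0 hy
  obtain ⟨gK, gG, gg, gy, gGF, DK, D'K, DvB, Dv'A, B0, AB, AA0, psA, psB, DF, D'F, DG, D'G⟩ := hG1 R 4 N
  obtain ⟨bA, bB, taA, taB, b'A, b'B, ta'A, ta'B, qb, q'b', Dg, D'g, al'ps, U'ta, cV, k1'ta, S'b,
    cBB, beA, beB, be'A, be'B⟩ := hG2 R 4 N
  obtain ⟨-, -, -, -, -, -, tab', ta'b, -, -, -, -⟩ := hG3 R 4 N
  obtain ⟨D'al, -, D'ph, -, -, -, -, PhPh⟩ := hG4 R 4 N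
  obtain ⟨yph, -, -, Dal, Z, psbe, P7, -, -, -, -⟩ := hP R 4 N h5
  have hF0 : χ N.F ≠ 0 := by
    intro h
    have := congrArg χ.h N.hFG
    rw [map_mul, h, zero_mul, map_one] at this
    exact zero_ne_one this
  have hFp : 0 < (χ N.F).re := chi_pos χ N.A N.hAB N.hFr hF0
  have hgp : 0 < (χ N.g).re := chi_pos χ N.ps (by rw [N.hpr]; rfl) gg hg0
  have hVp : 0 < (χ N.V).re := chi_pos χ N.ta rfl cV hV0
  have hKv : χ N.K = ((N.k : ℝ) : ℂ) := χ.hC _
  have hFv := chi_real χ N.hFr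
  have hgv := chi_real χ gg
  have hVv := chi_real χ cV
  have hGv : χ N.G = (χ N.F)⁻¹ := by
    have := congrArg χ.h gGF
    rw [map_mul, map_one] at this
    exact eq_inv_of_mul_eq_one_left this
  have hyv : χ N.y = 1 - χ N.K * χ N.g := by
    rw [Nt.y, map_sub, map_one, map_mul]
  have hy0 : χ N.y ≠ 0 := by
    intro h; rw [h] at hy; simp at hy
  have hal' : χ N.al' = 0 := by
    rw [Nt.al', χ.hcj, hal, map_zero]
  have hph : χ N.ph = 0 := by
    have h := congrArg χ.h yph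
    rw [map_mul, map_mul, hal, mul_zero] at h
    exact (mul_eq_zero.1 h).resolve_left hy0
  have hq'c : χ N.q' = (starRingEnd ℂ) (χ N.q) := χ.hcj _
  have hU'c : χ N.U' = (starRingEnd ℂ) (χ N.U) := χ.hcj _
  -- `U U' = V ^ 2`
  have hUU : χ N.U * χ N.U' = χ N.V ^ 2 := by
    have h := gramR hGr χ N.A N.B N.ps N.ta N.ta' N.ps N.ta N.ta' AA0 B0 (by rw [AB]; exact hF0)
      psA psB taA taB ta'A ta'B psA psB taA taB ta'A ta'B
    rw [← al'ps, hal', dot_comm N.ta' N.ta, ← U'ta] at h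
    change χ N.g * (χ N.U * χ N.U' - χ N.V * χ N.V) - χ N.al * _ + _ = 0 at h
    rw [hal, zero_mul, zero_mul, sub_zero, add_zero] at h
    have h2 := (mul_eq_zero.1 h).resolve_left hg0
    rw [sub_eq_zero] at h2
    rw [h2]; ring
  have hU0 : χ N.U ≠ 0 := by
    intro h
    rw [h, zero_mul] at hUU
    exact hV0 (pow_eq_zero_iff two_ne_zero |>.1 hUU.symm)
  -- `V ta = U ta'`
  have hta : ∀ c : Fin 4 → R, χ N.V * χ (dot N.ta c) = χ N.U * χ (dot N.ta' c) := by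
    intro c
    have hz : χ (dot (N.V • N.ta - N.U • N.ta') (cjv (N.V • N.ta - N.U • N.ta'))) = 0 := by
      have h1 : cjv (N.V • N.ta - N.U • N.ta') = N.V • N.ta' - N.U' • N.ta := by
        rw [cjv_sub, cjv_smul, cjv_smul, cV, Nt.ta', cjv_cjv]; rfl
      rw [h1]
      simp only [sub_dot, dot_sub, smul_dot, dot_smul, map_sub, map_mul]
      rw [dot_comm N.ta' N.ta, ← U'ta]
      change χ N.V * (χ N.V * χ N.V - χ N.U * χ N.U') -
        χ N.U' * (χ N.V * χ N.U - χ N.U * χ N.V) = 0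
      linear_combination (- χ N.V) * hUU
    have h2 := chi_dot_zero χ _ c hz
    simp only [sub_dot, smul_dot, map_sub, map_mul] at h2
    exact sub_eq_zero.1 h2
  have hk1' : χ N.k1' = 0 := by
    have h := hta N.b'
    rw [tab', ← k1'ta] at h
    simp only [map_mul, hal', mul_zero] at h
    exact (mul_eq_zero.1 h.symm).resolve_left hU0
  have hk1 : χ N.k1 = 0 := by
    have h : (starRingEnd ℂ) (χ N.k1) = 0 := by rw [← χ.hcj]; exact hk1'
    exact (map_eq_zero _).1 h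
  -- `g b' = q' ps`
  have hb' : ∀ c : Fin 4 → R, χ N.g * χ (dot N.b' c) = χ N.q' * χ (dot N.ps c) := by
    intro c
    have hcw : cjv (N.g • N.b' - N.q' • N.ps) = N.g • N.b - N.q • N.ps := by
      rw [cjv_sub, cjv_smul, cjv_smul, gg, N.hpr, Nt.b', cjv_cjv, Nt.q', cj_cj]
    have hz : χ (dot (N.g • N.b' - N.q' • N.ps) (cjv (N.g • N.b' - N.q' • N.ps))) = 0 := by
      have wA : dot (N.g • N.b' - N.q' • N.ps) N.A = 0 := by
        rw [sub_dot, smul_dot, smul_dot, b'A, psA]; ring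
      have wB : dot (N.g • N.b' - N.q' • N.ps) N.B = 0 := by
        rw [sub_dot, smul_dot, smul_dot, b'B, psB]; ring
      have cA : dot (cjv (N.g • N.b' - N.q' • N.ps)) N.A = 0 := by
        rw [hcw, sub_dot, smul_dot, smul_dot, bA, psA]; ring
      have cB : dot (cjv (N.g • N.b' - N.q' • N.ps)) N.B = 0 := by
        rw [hcw, sub_dot, smul_dot, smul_dot, bB, psB]; ring
      have h := gramR hGr χ N.A N.B N.ps N.ta (N.g • N.b' - N.q' • N.ps) N.ps N.ta'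
        (cjv (N.g • N.b' - N.q' • N.ps)) AA0 B0 (by rw [AB]; exact hF0)
        psA psB taA taB wA wB psA psB ta'A ta'B cA cB
      have e1 : χ (dot N.ps (cjv (N.g • N.b' - N.q' • N.ps))) = 0 := by
        rw [hcw, dot_sub, dot_smul, dot_smul, ← qb]
        change χ (N.g * N.q - N.q * N.g) = 0
        rw [mul_comm, sub_self, map_zero]
      have e2 : χ (dot (N.g • N.b' - N.q' • N.ps) N.ta') = 0 := by
        rw [sub_dot, smul_dot, smul_dot, dot_comm N.b' N.ta', ← k1'ta, ← al'ps]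
        simp only [map_sub, map_mul, hk1', hal', mul_zero, sub_zero]
      rw [← al'ps, hal', e1, e2] at h
      change χ N.g * (χ N.V * _ - _ * 0) - 0 * _ + 0 * _ = 0 at h
      rw [mul_zero, sub_zero, zero_mul, sub_zero, zero_mul, add_zero] at h
      exact (mul_eq_zero.1 ((mul_eq_zero.1 h).resolve_left hg0)).resolve_left hV0
    have h2 := chi_dot_zero χ _ c hz
    simp only [sub_dot, smul_dot, map_sub, map_mul] at h2
    exact sub_eq_zero.1 h2
  have hBBv : χ N.g * χ N.BB = χ N.q * χ N.q' := by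
    have h := hb' N.b
    rw [← qb, dot_comm N.b' N.b] at h
    rw [mul_comm (χ N.q)]
    exact h
  have hS'v : χ N.g * χ N.S' = χ N.q' ^ 2 := by
    have h := hb' N.b'
    rw [← q'b', ← S'b] at h
    rw [h]; ring
  have hSv : χ N.g * χ N.S = χ N.q ^ 2 := by
    have h := congrArg (starRingEnd ℂ) hS'v
    have h1 : (starRingEnd ℂ) (χ N.S') = χ N.S := by
      rw [← χ.hcj]; unfold Nt.S'; rw [cj_cj]
    have h2 : (starRingEnd ℂ) (χ N.q') = χ N.q := by
      rw [← χ.hcj]; unfold Nt.q'; rw [cj_cj]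
    rw [map_mul, map_pow, h1, h2, ← χ.hcj, gg] at h
    exact h
  have hpsbe : χ (dot N.ps N.be) = 0 := by
    rw [psbe]
    simp only [map_sub, map_mul, hph, hk1, mul_zero, sub_zero]
  have hpsbe' : χ (dot N.ps N.be') = 0 := by
    have h : dot N.ps N.be' = cj (dot N.ps N.be) := by
      rw [cj_dot, N.hpr]; rfl
    rw [h, χ.hcj, hpsbe, map_zero]
  have htabe' : χ (dot N.ta N.be') = (starRingEnd ℂ) (χ (dot N.ta' N.be)) := by
    have h : dot N.ta N.be' = cj (dot N.ta' N.be) := by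
      rw [cj_dot, Nt.ta', cjv_cjv]; rfl
    rw [h, χ.hcj]
  have hEE : χ N.V * χ (dot N.be N.be') = (starRingEnd ℂ) (χ (dot N.ta' N.be)) * χ (dot N.ta' N.be) := by
    have h := gramR hGr χ N.A N.B N.ps N.ta N.be N.ps N.ta' N.be' AA0 B0 (by rw [AB]; exact hF0)
      psA psB taA taB beA beB psA psB ta'A ta'B be'A be'B
    rw [← al'ps, hal', hpsbe', dot_comm N.be N.ta', htabe'] at h
    change χ N.g * (χ N.V * _ - _) - 0 * _ + 0 * _ = 0 at h
    rw [zero_mul, sub_zero, zero_mul, add_zero] at h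
    exact sub_eq_zero.1 ((mul_eq_zero.1 h).resolve_left hg0)
  have hD2' := hD2 R 4 N χ h5 hal hk1 hy0
  obtain ⟨hPD, hph1⟩ := hD2b R 4 N χ h5 hal hy0
  have hDD' := hDD R 4 N χ h5 hal hy0
  have ha1 := congrArg χ.h Dal
  have hd1 := congrArg χ.h D'al
  have hZ := congrArg χ.h Z
  have hP7 := congrArg χ.h P7
  have hph2 := congrArg χ.h D'ph
  have hPP := congrArg χ.h PhPh
  simp only [map_add, map_sub, map_mul, map_one, map_ofNat, hal, hal', hph, mul_zero,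
    add_zero, zero_add, hGv] at ha1 hd1 hZ hP7 hph2 hPP
  rw [hGv] at hDD'
  have hyR : (1 : ℝ) - N.k * (χ N.g).re = (χ N.y).re := by
    rw [hyv, hKv, hgv]
    simp
  have core := coreCR N.k (χ N.F).re (χ N.g).re (χ N.V).re hk hFp hgp hVp (by rw [hyR]; exact hy)
    (χ N.q) (χ N.q') (χ N.U) (χ N.U') (χ (D N.al)) (χ (D' N.al)) (χ N.S) (χ N.S') (χ N.BB)
    (χ (dot N.ta' N.be)) (χ (dot N.ta N.be)) (χ (dot N.ps (Dv N.be))) (χ (dot N.b' (Dv N.be)))
    (χ (D N.ph)) (χ (D' N.ph)) (χ (dot N.be N.be')) (χ (dot N.Ph N.Ph')) (χ N.y)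
  rw [← hFv, ← hgv, ← hVv, ← hKv] at core
  exact core hq'c hU'c hyv hUU hSv hS'v hBBv (hb' _) (hta _) hEE ha1 hd1 hZ hP7 hPD hph1 hph2 hPP
    hD2' hDD'

end N255
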